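import Pool.Agent.W338.P4.Ind2

set_option autoImplicit false
open scoped ComplexOrder

namespace Pool.Agent.Results.MP_452fea_co.InducedOrbits

/-- Permanent dominance for all `n`, all subgroups `H` of `S_n` and all characters of `H` that are
induced from a character of a subgroup `K` of `H` with the property that every orbit of `K` on
`{1, ..., n}` has at most four elements, or is such that all even permutations of the orbit lie in
`K` and act trivially in the representation. For `K = H` this contains all characters of all groups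
with orbits of at most four elements, in particular the whole case `n = 4`. -/
theorem result :
    ∀ (n : ℕ) (H K : Subgroup (Equiv.Perm (Fin n))), K ≤ H →
      ∀ (W : FDRep ℂ K),
      (∀ i : Fin n, {j : Fin n | ∃ σ ∈ K, σ i = j}.ncard ≤ 4 ∨
        ∀ τ : Equiv.Perm (Fin n), Equiv.Perm.sign τ = 1 →
          (∀ j, (∀ σ ∈ K, σ i ≠ j) → τ j = j) → ∃ h : τ ∈ K, W.ρ ⟨τ, h⟩ = 1) →
      ∀ (V : FDRep ℂ H),
      (∀ σ : H, V.character σ = (Nat.card K : ℂ)⁻¹ * ∑ᶠ x : H,
        Function.extend (Subtype.val : K → Equiv.Perm (Fin n)) W.character 0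
          ((x : Equiv.Perm (Fin n))⁻¹ * σ * x)) →
      ∀ A : Matrix (Fin n) (Fin n) ℂ, A.PosSemidef →
      (V.character 1)⁻¹ * ∑ᶠ σ : H, V.character σ * ∏ i, A i ((σ : Equiv.Perm (Fin n)) i)
        ≤ A.permanent :=
  fun _ H K hKH W hK V hV A hA => Pool.Agent.W338.P4.lieb_induced' H K hKH W hK V hV A hA

end Pool.Agent.Results.MP_452fea_co.InducedOrbits
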